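import Pool.Agent.W633.ErdosA

set_option autoImplicit false

namespace Pool.Agent.W633

open Set Filter Topology

/-- The compact-open topology on the homeomorphism group. -/
@[reducible] def autTop (M : Type) [TopologicalSpace M] : TopologicalSpace (M ≃ₜ M) :=
  TopologicalSpace.induced (fun g : M ≃ₜ M => ContinuousMap.mk (⇑g) g.continuous) inferInstance

attribute [local instance] autTop

theorem continuous_toMap (M : Type) [TopologicalSpace M] :
    Continuous (fun g : M ≃ₜ M => (ContinuousMap.mk (⇑g) g.continuous : C(M, M))) :=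
  continuous_induced_dom

/-- The homeomorphism of `ℕ × K` given by a sequence of homeomorphisms of `K`. -/
def psi {K : Type} [TopologicalSpace K] (g : ℕ → (K ≃ₜ K)) : (ℕ × K) ≃ₜ (ℕ × K) where
  toFun p := (p.1, g p.1 p.2)
  invFun p := (p.1, (g p.1).symm p.2)
  left_inv p := by simp
  right_inv p := by simp
  continuous_toFun := by
    rw [continuous_iff_continuousAt]
    rintro ⟨i, m⟩
    have h : Continuous fun p : ℕ × K => (p.1, g i p.2) :=
      continuous_fst.prodMk ((g i).continuous.comp continuous_snd)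
    refine h.continuousAt.congr ?_
    have h1 : ∀ᶠ p : ℕ × K in 𝓝 (i, m), p.1 = i :=
      (((isOpen_discrete {i}).preimage continuous_fst).mem_nhds rfl : (Prod.fst ⁻¹' {i} : Set (ℕ × K)) ∈ 𝓝 (i, m))
    filter_upwards [h1] with p hp
    rw [hp]
  continuous_invFun := by
    rw [continuous_iff_continuousAt]
    rintro ⟨i, m⟩
    have h : Continuous fun p : ℕ × K => (p.1, (g i).symm p.2) :=
      continuous_fst.prodMk ((g i).symm.continuous.comp continuous_snd)
    refine h.continuousAt.congr ?_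
    have h1 : ∀ᶠ p : ℕ × K in 𝓝 (i, m), p.1 = i :=
      (((isOpen_discrete {i}).preimage continuous_fst).mem_nhds rfl : (Prod.fst ⁻¹' {i} : Set (ℕ × K)) ∈ 𝓝 (i, m))
    filter_upwards [h1] with p hp
    rw [hp]

theorem psi_apply {K : Type} [TopologicalSpace K] (g : ℕ → (K ≃ₜ K)) (p : ℕ × K) :
    psi g p = (p.1, g p.1 p.2) := rfl

theorem psi_closedEmbedding (K : Type) [TopologicalSpace K] [CompactSpace K] [T2Space K] :
    IsClosedEmbedding (psi : (ℕ → (K ≃ₜ K)) → ((ℕ × K) ≃ₜ (ℕ × K))) := by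
  have hcont : Continuous (psi : (ℕ → (K ≃ₜ K)) → ((ℕ × K) ≃ₜ (ℕ × K))) := by
    rw [continuous_induced_rng]
    refine ContinuousMap.continuous_of_continuous_uncurry _ ?_
    show Continuous fun q : (ℕ → (K ≃ₜ K)) × (ℕ × K) => (q.2.1, q.1 q.2.1 q.2.2)
    rw [continuous_iff_continuousAt]
    rintro ⟨g, i, m⟩
    have h0 : Continuous fun q : (ℕ → (K ≃ₜ K)) × (ℕ × K) => (q.1 i) q.2.2 := by
      have h1 : Continuous fun q : (ℕ → (K ≃ₜ K)) × (ℕ × K) =>
          ((ContinuousMap.mk (⇑(q.1 i)) (q.1 i).continuous : C(K, K)), q.2.2) :=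
        ((continuous_toMap K).comp ((continuous_apply i).comp continuous_fst)).prodMk
          (continuous_snd.comp continuous_snd)
      exact ContinuousEval.continuous_eval.comp h1
    have h : Continuous fun q : (ℕ → (K ≃ₜ K)) × (ℕ × K) => (q.2.1, (q.1 i) q.2.2) :=
      (continuous_fst.comp continuous_snd).prodMk h0
    refine h.continuousAt.congr ?_
    have h1 : ∀ᶠ q : (ℕ → (K ≃ₜ K)) × (ℕ × K) in 𝓝 (g, i, m), q.2.1 = i :=
      (((isOpen_discrete {i}).preimage (continuous_fst.comp continuous_snd)).mem_nhds rfl :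
        ((Prod.fst ∘ Prod.snd) ⁻¹' {i} : Set ((ℕ → (K ≃ₜ K)) × (ℕ × K))) ∈ 𝓝 (g, i, m))
    filter_upwards [h1] with q hq
    rw [hq]
  have hinj : Function.Injective (psi : (ℕ → (K ≃ₜ K)) → ((ℕ × K) ≃ₜ (ℕ × K))) := by
    intro g h hgh
    funext i
    ext m
    have := congrArg (fun e : (ℕ × K) ≃ₜ (ℕ × K) => e (i, m)) hgh
    simp only [psi_apply] at this
    exact (Prod.mk.inj this).2
  have hind : IsInducing (psi : (ℕ → (K ≃ₜ K)) → ((ℕ × K) ≃ₜ (ℕ × K))) := by
    constructor
    apply le_antisymm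
    · exact continuous_iff_le_induced.mp hcont
    · -- each coordinate is continuous for the induced topology
      show _ ≤ Pi.topologicalSpace
      refine le_iInf fun i => ?_
      rw [← continuous_iff_le_induced]
      let _ : TopologicalSpace (ℕ → (K ≃ₜ K)) := TopologicalSpace.induced psi (autTop (ℕ × K))
      show Continuous fun g : ℕ → (K ≃ₜ K) => g i
      rw [continuous_induced_rng]
      have h1 : Continuous (psi : (ℕ → (K ≃ₜ K)) → ((ℕ × K) ≃ₜ (ℕ × K))) := continuous_induced_dom
      have h2 : Continuous fun g : ℕ → (K ≃ₜ K) =>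
          (ContinuousMap.mk (⇑(psi g)) (psi g).continuous : C(ℕ × K, ℕ × K)) :=
        (continuous_toMap (ℕ × K)).comp h1
      let inc : C(K, ℕ × K) := ⟨fun m => (i, m), by fun_prop⟩
      let sn : C(ℕ × K, K) := ⟨Prod.snd, continuous_snd⟩
      have h3 : Continuous fun f : C(ℕ × K, ℕ × K) => (sn.comp f).comp inc :=
        (ContinuousMap.continuous_precomp inc).comp (ContinuousMap.continuous_postcomp sn)
      have h4 := h3.comp h2
      have e : ((fun g : K ≃ₜ K => (ContinuousMap.mk (⇑g) g.continuous : C(K, K))) ∘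
          fun g : ℕ → (K ≃ₜ K) => g i) = (fun f : C(ℕ × K, ℕ × K) => (sn.comp f).comp inc) ∘
          fun g : ℕ → (K ≃ₜ K) => (ContinuousMap.mk (⇑(psi g)) (psi g).continuous : C(ℕ × K, ℕ × K)) := by
        funext g
        rfl
      rw [e]
      exact h4
  have hrange : range (psi : (ℕ → (K ≃ₜ K)) → ((ℕ × K) ≃ₜ (ℕ × K))) =
      {h | ∀ p : ℕ × K, (h p).1 = p.1} := by
    ext h
    constructor
    · rintro ⟨g, rfl⟩ p
      rfl
    · intro hh
      have hh' : ∀ p : ℕ × K, (h p).1 = p.1 := hh
      have hs : ∀ p : ℕ × K, (h.symm p).1 = p.1 := by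
        intro p
        have := hh' (h.symm p)
        rw [h.apply_symm_apply] at this
        exact this.symm
      have e1 : ∀ i m, h (i, m) = (i, (h (i, m)).2) := fun i m => Prod.ext (hh' (i, m)) rfl
      have e2 : ∀ i m, h.symm (i, m) = (i, (h.symm (i, m)).2) := fun i m => Prod.ext (hs (i, m)) rfl
      refine ⟨fun i => ⟨⟨fun m => (h (i, m)).2, fun m => (h.symm (i, m)).2, ?_, ?_⟩, ?_, ?_⟩, ?_⟩
      · intro m
        show (h.symm (i, (h (i, m)).2)).2 = m
        rw [← e1, h.symm_apply_apply]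
      · intro m
        show (h (i, (h.symm (i, m)).2)).2 = m
        rw [← e2, h.apply_symm_apply]
      · exact continuous_snd.comp (h.continuous.comp (by fun_prop))
      · exact continuous_snd.comp (h.symm.continuous.comp (by fun_prop))
      · ext p
        · exact (hh' p).symm
        · rfl
  refine ⟨⟨hind, hinj⟩, ?_⟩
  rw [hrange]
  have : {h : (ℕ × K) ≃ₜ (ℕ × K) | ∀ p : ℕ × K, (h p).1 = p.1} =
      ⋂ p : ℕ × K, {h : (ℕ × K) ≃ₜ (ℕ × K) | (h p).1 = p.1} := by
    ext h; simp
  rw [this]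
  refine isClosed_iInter fun p => ?_
  have hc : Continuous fun h : (ℕ × K) ≃ₜ (ℕ × K) => (h p).1 := by
    have h1 : Continuous fun h : (ℕ × K) ≃ₜ (ℕ × K) =>
        (ContinuousMap.mk (⇑h) h.continuous : C(ℕ × K, ℕ × K)) p :=
      (ContinuousEvalConst.continuous_eval_const p).comp (continuous_toMap (ℕ × K))
    exact continuous_fst.comp h1
  exact isClosed_eq hc continuous_const

/-- The countable power of complete Erdos space does not embed as a closed subset of complete Erdos
space. -/
theorem no_power (φ : (ℕ → (Erd : Set L2)) → (Erd : Set L2)) (hφ : IsClosedEmbedding φ) : False := by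
  classical
  have h0 : (0 : L2) ∈ (Erd : Set L2) := by
    intro i
    left
    rfl
  let z0 : (Erd : Set L2) := ⟨0, h0⟩
  let c : ℕ → (Erd : Set L2) := fun _ => z0
  -- bounded neighbourhood
  let V : Set (ℕ → (Erd : Set L2)) := {y | ‖((φ y : (Erd : Set L2)) : L2)‖ < ‖((φ c : (Erd : Set L2)) : L2)‖ + 1}
  have hVo : IsOpen V :=
    isOpen_lt ((continuous_subtype_val.comp hφ.continuous).norm) continuous_const
  have hcV : c ∈ V := by
    show ‖((φ c : (Erd : Set L2)) : L2)‖ < ‖((φ c : (Erd : Set L2)) : L2)‖ + 1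
    linarith
  obtain ⟨I, u, hu, huV⟩ := isOpen_pi_iff.mp hVo c hcV
  obtain ⟨n, hn⟩ := I.exists_nat_subset_range
  -- shift
  let σ : (ℕ → (Erd : Set L2)) → (ℕ → (Erd : Set L2)) := fun y i => if i < n then z0 else y (i - n)
  have hσc : Continuous σ := by
    refine continuous_pi fun i => ?_
    by_cases hi : i < n
    · have : (fun y => σ y i) = fun _ => z0 := by funext y; simp [σ, hi]
      rw [this]; exact continuous_const
    · have : (fun y => σ y i) = fun y => y (i - n) := by funext y; simp [σ, hi]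
      rw [this]; exact continuous_apply _
  let τ : (ℕ → (Erd : Set L2)) → (ℕ → (Erd : Set L2)) := fun y i => y (i + n)
  have hτc : Continuous τ := continuous_pi fun i => continuous_apply _
  have hτσ : Function.LeftInverse τ σ := by
    intro y
    funext i
    simp [τ, σ]
  have hσe : IsClosedEmbedding σ := hτσ.isClosedEmbedding hτc hσc
  have hσV : ∀ y, σ y ∈ V := by
    intro y
    apply huV
    intro i hi
    have : i < n := Finset.mem_range.mp (hn hi)
    have h2 : σ y i = c i := by simp [σ, c, this]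
    rw [h2]
    exact (hu i hi).2
  -- the embedding in Hilbert space
  have hval : IsClosedEmbedding (Subtype.val : ↥(Erd : Set L2) → L2) := Erd_closed.isClosedEmbedding_subtypeVal
  have hθ : IsClosedEmbedding fun y => ((φ (σ y) : (Erd : Set L2)) : L2) :=
    hval.comp (hφ.comp hσe)
  have : Nonempty (ℕ → (Erd : Set L2)) := ⟨c⟩
  obtain ⟨x, hx⟩ := zero_dim_point (R := ‖((φ c : (Erd : Set L2)) : L2)‖ + 1) hθ
    (fun y => (φ (σ y)).2) (fun y => (hσV y).le)
  -- Erdos
  obtain ⟨C, hC, hxC, hCU⟩ := hx {y | ‖((y 0 : (Erd : Set L2)) : L2)‖ < ‖((x 0 : (Erd : Set L2)) : L2)‖ + 1}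
    ((isOpen_lt ((continuous_subtype_val.comp (continuous_apply 0)).norm) continuous_const).mem_nhds
      (show ‖((x 0 : (Erd : Set L2)) : L2)‖ < ‖((x 0 : (Erd : Set L2)) : L2)‖ + 1 by linarith))
  let ins : ↥(Erd : Set L2) → (ℕ → ↥(Erd : Set L2)) := fun t => Function.update x 0 t
  have hins : Continuous ins := continuous_const.update 0 continuous_id
  let D : Set (Erd : Set L2) := ins ⁻¹' C
  have hD : IsClopen D := hC.preimage hins
  let D' : Set L2 := Subtype.val '' D
  refine erdos (C := D') (R := ‖((x 0 : (Erd : Set L2)) : L2)‖ + 1) ?_ ?_ ?_ ?_ ?_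
  · rintro _ ⟨t, _, rfl⟩
    exact t.2
  · rintro _ ⟨t, ht, rfl⟩
    have h1 : ‖((ins t 0 : (Erd : Set L2)) : L2)‖ < ‖((x 0 : (Erd : Set L2)) : L2)‖ + 1 := hCU ht
    have h2 : ins t 0 = t := by simp [ins]
    rw [h2] at h1
    exact h1.le
  · refine ⟨x 0, x 0, ?_, rfl⟩
    show Function.update x 0 (x 0) ∈ C
    rw [Function.update_eq_self]
    exact hxC
  · exact hval.isClosedMap _ hD.isClosed
  · have : (Erd : Set L2) \ D' = Subtype.val '' Dᶜ := by
      ext t
      constructor
      · rintro ⟨ht, hn⟩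
        refine ⟨⟨t, ht⟩, ?_, rfl⟩
        intro hm
        exact hn ⟨⟨t, ht⟩, hm, rfl⟩
      · rintro ⟨s, hs, rfl⟩
        refine ⟨s.2, ?_⟩
        rintro ⟨s', hs', he⟩
        have : s' = s := Subtype.ext he
        rw [this] at hs'
        exact hs hs'
    rw [this]
    exact hval.isClosedMap _ hD.compl.isClosed

end Pool.Agent.W633
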