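import Mathlib

set_option autoImplicit false

namespace Pool.Agent.W633

open Set Filter Topology

/-- Hilbert space. -/
abbrev L2 : Type := lp (fun _ : ℕ => ℝ) 2

/-- The coordinate set `{0} ∪ {1/k}`. -/
def SS : Set ℝ := {t | t = 0 ∨ ∃ k : ℕ, 0 < k ∧ t = 1 / (k : ℝ)}

/-- Complete Erdos space. -/
abbrev Erd : Set L2 :=
  {x : lp (fun _ : ℕ => ℝ) 2 | ∀ i : ℕ, (x : ℕ → ℝ) i = 0 ∨
            ∃ k : ℕ, 0 < k ∧ (x : ℕ → ℝ) i = 1 / (k : ℝ)}

theorem SS_eq : SS = insert (0 : ℝ) (range fun n : ℕ => 1 / ((n : ℝ) + 1)) := by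
  ext t
  simp only [SS, mem_ofPred_eq, mem_insert_iff, mem_range]
  constructor
  · rintro (h | ⟨k, hk, h⟩)
    · exact Or.inl h
    · right
      refine ⟨k - 1, ?_⟩
      rw [h]
      have : ((k - 1 : ℕ) : ℝ) = (k : ℝ) - 1 := by
        rw [Nat.cast_sub (by omega)]
        simp
      rw [this]
      ring_nf
  · rintro (h | ⟨k, h⟩)
    · exact Or.inl h
    · right
      exact ⟨k + 1, Nat.succ_pos k, by rw [← h]; push_cast; rfl⟩

theorem SS_compact : IsCompact SS := by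
  rw [SS_eq]
  exact tendsto_one_div_add_atTop_nhds_zero_nat.isCompact_insert_range

theorem SS_countable : SS.Countable := by
  rw [SS_eq]
  exact (countable_range _).insert _

theorem SS_nonneg {t : ℝ} (ht : t ∈ SS) : 0 ≤ t := by
  rcases ht with h | ⟨k, hk, h⟩
  · rw [h]
  · rw [h]; positivity

theorem cont_coord (i : ℕ) : Continuous fun x : L2 => (x : ℕ → ℝ) i :=
  (lp.evalCLM ℝ (fun _ : ℕ => ℝ) 2 i).continuous

theorem Erd_closed : IsClosed (Erd : Set L2) := by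
  have : (Erd : Set L2) = ⋂ i : ℕ, (fun x : L2 => (x : ℕ → ℝ) i) ⁻¹' SS := by
    ext x
    simp [SS]
  rw [this]
  exact isClosed_iInter fun i => SS_compact.isClosed.preimage (cont_coord i)

theorem normsq (x : L2) : HasSum (fun i => ((x : ℕ → ℝ) i) ^ 2) (‖x‖ ^ 2) := by
  have h := lp.hasSum_norm (p := 2) (by norm_num) x
  simpa using h

/-- Coordinatewise increase: `‖y - x‖² ≤ ‖y‖² - ‖x‖²`. -/
theorem dist_le_of_mono {x y : L2} (h0 : ∀ i, 0 ≤ (x : ℕ → ℝ) i)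
    (h : ∀ i, (x : ℕ → ℝ) i ≤ (y : ℕ → ℝ) i) : ‖y - x‖ ^ 2 ≤ ‖y‖ ^ 2 - ‖x‖ ^ 2 := by
  have h1 : HasSum (fun i => (((y - x : L2) : ℕ → ℝ) i) ^ 2) (‖y - x‖ ^ 2) := normsq (y - x)
  have h2 : HasSum (fun i => ((y : ℕ → ℝ) i) ^ 2 - ((x : ℕ → ℝ) i) ^ 2) (‖y‖ ^ 2 - ‖x‖ ^ 2) :=
    (normsq y).sub (normsq x)
  refine hasSum_le (fun i => ?_) h1 h2
  have e : ((y - x : L2) : ℕ → ℝ) i = (y : ℕ → ℝ) i - (x : ℕ → ℝ) i := by
    rw [lp.coeFn_sub]; rfl
  rw [e]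
  nlinarith [h0 i, h i, mul_nonneg (h0 i) (sub_nonneg.mpr (h i))]

/-- One modification of a coordinate. -/
theorem modify {x : L2} (hx : x ∈ Erd) {k : ℕ} (hk : 0 < k) :
    ∃ y : L2, y ∈ Erd ∧ (∀ i, (x : ℕ → ℝ) i ≤ (y : ℕ → ℝ) i) ∧ ‖y - x‖ ≤ 1 / (k : ℝ) ∧
      ‖x‖ ^ 2 + 3 / (4 * (k : ℝ) ^ 2) ≤ ‖y‖ ^ 2 := by
  have hk' : (0 : ℝ) < k := by exact_mod_cast hk
  have hpos : ∀ i, 0 ≤ (x : ℕ → ℝ) i := fun i => SS_nonneg (hx i)
  -- coordinates tend to zero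
  have ht : Tendsto (fun i => ((x : ℕ → ℝ) i) ^ 2) atTop (𝓝 0) := (normsq x).summable.tendsto_atTop_zero
  have he : ∀ᶠ i in atTop, ((x : ℕ → ℝ) i) ^ 2 < 1 / (4 * (k : ℝ) ^ 2) :=
    ht.eventually_lt_const (by positivity)
  obtain ⟨j, hj⟩ := he.exists
  set y : L2 := x + lp.single 2 j (1 / (k : ℝ) - (x : ℕ → ℝ) j) with hy
  have hxj : (x : ℕ → ℝ) j ≤ 1 / (k : ℝ) := by
    have h1 : ((x : ℕ → ℝ) j) ^ 2 ≤ (1 / (k : ℝ)) ^ 2 := by
      have : (1 / (k : ℝ)) ^ 2 = 4 * (1 / (4 * (k : ℝ) ^ 2)) := by field_simp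
      rw [this]
      nlinarith [hj.le, sq_nonneg ((x : ℕ → ℝ) j)]
    exact le_of_sq_le_sq h1 (by positivity)
  have hyj : (y : ℕ → ℝ) j = 1 / (k : ℝ) := by
    rw [hy, lp.coeFn_add, Pi.add_apply, lp.single_apply_self]; ring
  have hyi : ∀ i, i ≠ j → (y : ℕ → ℝ) i = (x : ℕ → ℝ) i := by
    intro i hi
    rw [hy, lp.coeFn_add, Pi.add_apply, lp.single_apply_ne _ _ _ hi, add_zero]
  have hmono : ∀ i, (x : ℕ → ℝ) i ≤ (y : ℕ → ℝ) i := by
    intro i
    by_cases hi : i = j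
    · subst hi; rw [hyj]; exact hxj
    · rw [hyi i hi]
  refine ⟨y, ?_, hmono, ?_, ?_⟩
  · intro i
    by_cases hi : i = j
    · subst hi; right; exact ⟨k, hk, hyj⟩
    · rw [hyi i hi]; exact hx i
  · have : y - x = lp.single 2 j (1 / (k : ℝ) - (x : ℕ → ℝ) j) := by rw [hy]; abel
    rw [this, lp.norm_single (by norm_num), Real.norm_eq_abs, abs_of_nonneg (by linarith)]
    linarith [hpos j]
  · have h1 : HasSum (fun i => ((y : ℕ → ℝ) i) ^ 2 - ((x : ℕ → ℝ) i) ^ 2) (‖y‖ ^ 2 - ‖x‖ ^ 2) :=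
      (normsq y).sub (normsq x)
    have h2 : HasSum (fun i => ((y : ℕ → ℝ) i) ^ 2 - ((x : ℕ → ℝ) i) ^ 2)
        ((((y : ℕ → ℝ) j) ^ 2 - ((x : ℕ → ℝ) j) ^ 2)) := by
      refine hasSum_single j fun i hi => ?_
      rw [hyi i hi, sub_self]
    have h3 := h1.unique h2
    rw [hyj] at h3
    have h4 : (1 / (k : ℝ)) ^ 2 = 4 * (1 / (4 * (k : ℝ) ^ 2)) := by field_simp
    have h5 : 3 / (4 * (k : ℝ) ^ 2) = 3 * (1 / (4 * (k : ℝ) ^ 2)) := by ring
    rw [h5]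
    linarith

/-- Step of Erdos' argument. -/
theorem step {C : Set L2} {R : ℝ} (hCE : C ⊆ Erd) (hR : ∀ x ∈ C, ‖x‖ ≤ R) {x : L2} (hx : x ∈ C)
    {k : ℕ} (hk : 0 < k) :
    ∃ x' ∈ C, (∀ i, (x : ℕ → ℝ) i ≤ (x' : ℕ → ℝ) i) ∧
      ∃ y ∈ (Erd : Set L2), y ∉ C ∧ ‖y - x'‖ ≤ 1 / (k : ℝ) := by
  by_contra hcon
  push Not at hcon
  have hk' : (0 : ℝ) < k := by exact_mod_cast hk
  have key : ∀ n : ℕ, ∃ y ∈ C, (∀ i, (x : ℕ → ℝ) i ≤ (y : ℕ → ℝ) i) ∧
      (n : ℝ) * (3 / (4 * (k : ℝ) ^ 2)) ≤ ‖y‖ ^ 2 := by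
    intro n
    induction n with
    | zero => exact ⟨x, hx, fun i => le_rfl, by simp⟩
    | succ n ih =>
      obtain ⟨y, hyC, hyx, hyn⟩ := ih
      obtain ⟨z, hzE, hyz, hzd, hzn⟩ := modify (hCE hyC) hk
      have hzC : z ∈ C := by
        by_contra hz
        exact absurd hzd (not_le.mpr (hcon y hyC hyx z hzE hz))
      refine ⟨z, hzC, fun i => (hyx i).trans (hyz i), ?_⟩
      push_cast
      linarith
  obtain ⟨n, hn⟩ := exists_nat_gt (R ^ 2 / (3 / (4 * (k : ℝ) ^ 2)))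
  obtain ⟨y, hyC, -, hyn⟩ := key n
  have h1 : R ^ 2 < n * (3 / (4 * (k : ℝ) ^ 2)) := by
    rwa [div_lt_iff₀ (by positivity)] at hn
  have h2 : ‖y‖ ^ 2 ≤ R ^ 2 := pow_le_pow_left₀ (norm_nonneg _) (hR y hyC) 2
  linarith

/-- Erdos: a nonempty bounded subset of complete Erdos space is not clopen. Here `C` is closed in
Hilbert space and the complement `Erd \ C` is closed as well. -/
theorem erdos {C : Set L2} {R : ℝ} (hCE : C ⊆ Erd) (hR : ∀ x ∈ C, ‖x‖ ≤ R) (hne : C.Nonempty)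
    (hC : IsClosed C) (hD : IsClosed ((Erd : Set L2) \ C)) : False := by
  classical
  obtain ⟨x₀, hx₀⟩ := hne
  have hst : ∀ (k : ℕ) (x : C), ∃ x' : C, (∀ i, (x : L2) i ≤ (x' : L2) i) ∧
      ∃ y ∈ (Erd : Set L2), y ∉ C ∧ ‖y - x'‖ ≤ 1 / ((k : ℝ) + 1) := by
    intro k x
    obtain ⟨x', hx', h1, y, hyE, hyC, h2⟩ := step hCE hR x.2 (Nat.succ_pos k)
    refine ⟨⟨x', hx'⟩, h1, y, hyE, hyC, ?_⟩
    push_cast at h2
    exact h2
  choose nx hn1 hn2 using hst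
  obtain ⟨u, hu⟩ : ∃ u : ℕ → C, ∀ n, u (n + 1) = nx n (u n) :=
    ⟨fun n => Nat.rec ⟨x₀, hx₀⟩ (fun n x => nx n x) n, fun n => rfl⟩
  have hmono1 : ∀ (n i : ℕ), (((u n).1 : L2) : ℕ → ℝ) i ≤ (((u (n + 1)).1 : L2) : ℕ → ℝ) i := by
    intro n i; rw [hu]; exact hn1 n (u n) i
  have hmono : ∀ i, Monotone fun n : ℕ => (((u n).1 : L2) : ℕ → ℝ) i := fun i =>
    monotone_nat_of_le_succ fun n => hmono1 n i
  have hpos : ∀ (n i : ℕ), 0 ≤ (((u n).1 : L2) : ℕ → ℝ) i := fun n i => SS_nonneg (hCE (u n).2 i)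
  have hd : ∀ (m n : ℕ), m ≤ n → ‖(u n : L2) - (u m : L2)‖ ^ 2 ≤ ‖(u n : L2)‖ ^ 2 - ‖(u m : L2)‖ ^ 2 := by
    intro m n hmn
    exact dist_le_of_mono (hpos m) fun i => hmono i hmn
  have hnm : Monotone fun n => ‖(u n : L2)‖ ^ 2 := by
    intro m n hmn
    have := hd m n hmn
    have h2 := sq_nonneg (‖(u n : L2) - (u m : L2)‖)
    show ‖(u m : L2)‖ ^ 2 ≤ ‖(u n : L2)‖ ^ 2
    linarith
  have hbd : BddAbove (range fun n => ‖(u n : L2)‖ ^ 2) := by
    refine ⟨R ^ 2, ?_⟩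
    rintro _ ⟨n, rfl⟩
    exact pow_le_pow_left₀ (norm_nonneg _) (hR _ (u n).2) 2
  have hlim := tendsto_atTop_ciSup hnm hbd
  set L := ⨆ n, ‖(u n : L2)‖ ^ 2 with hL
  have hcau : CauchySeq fun n => (u n : L2) := by
    rw [Metric.cauchySeq_iff']
    intro ε hε
    have h1 : ∀ᶠ n in atTop, L - ε ^ 2 < ‖(u n : L2)‖ ^ 2 :=
      hlim.eventually_const_lt (by linarith [pow_pos hε 2])
    obtain ⟨N, hN⟩ := h1.exists
    refine ⟨N, fun n hn => ?_⟩
    have h2 := hd N n hn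
    have h3 : ‖(u n : L2)‖ ^ 2 ≤ L := le_ciSup hbd n
    rw [dist_eq_norm]
    exact lt_of_pow_lt_pow_left₀ 2 hε.le (by linarith)
  obtain ⟨z, hz⟩ := cauchySeq_tendsto_of_complete hcau
  have hzC : z ∈ C := hC.mem_of_tendsto hz (Eventually.of_forall fun n => (u n).2)
  choose y hyE hyC hyd using fun n => hn2 n (u n)
  have hy : Tendsto y atTop (𝓝 z) := by
    have h1 : Tendsto (fun n => y n - (u (n + 1) : L2)) atTop (𝓝 0) := by
      rw [tendsto_zero_iff_norm_tendsto_zero]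
      refine squeeze_zero (fun n => norm_nonneg _) (fun n => ?_) tendsto_one_div_add_atTop_nhds_zero_nat
      rw [hu n]
      exact hyd n
    have h2 : Tendsto (fun n => (u (n + 1) : L2)) atTop (𝓝 z) := hz.comp (tendsto_add_atTop_nat 1)
    have h3 := h1.add h2
    simpa using h3
  have hzD : z ∈ (Erd : Set L2) \ C :=
    hD.mem_of_tendsto hy (Eventually.of_forall fun n => ⟨hyE n, hyC n⟩)
  exact hzD.2 hzC

/-- Coordinatewise convergence and convergence of norms give norm convergence. -/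
theorem radon_riesz {X : Type*} {l : Filter X} {f : X → L2} {z : L2}
    (hc : ∀ i, Tendsto (fun x => ((f x : L2) : ℕ → ℝ) i) l (𝓝 ((z : ℕ → ℝ) i)))
    (hn : Tendsto (fun x => ‖f x‖ ^ 2) l (𝓝 (‖z‖ ^ 2))) : Tendsto f l (𝓝 z) := by
  -- compare tails
  rw [tendsto_iff_norm_sub_tendsto_zero]
  have key : Tendsto (fun x => ‖f x - z‖ ^ 2) l (𝓝 0) := by
    rw [Metric.tendsto_nhds]
    intro ε hε
    -- choose n with small tail of z
    have hz := (normsq z).tendsto_sum_nat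
    have h1 : ∀ᶠ n in atTop, ‖z‖ ^ 2 - ε / 8 < ∑ i ∈ Finset.range n, ((z : ℕ → ℝ) i) ^ 2 :=
      hz.eventually_const_lt (by linarith)
    obtain ⟨n, hn1⟩ := h1.exists
    have hs1 : Tendsto (fun x => ∑ i ∈ Finset.range n, (((f x : L2) : ℕ → ℝ) i) ^ 2) l
        (𝓝 (∑ i ∈ Finset.range n, ((z : ℕ → ℝ) i) ^ 2)) :=
      tendsto_finsetSum _ fun i _ => (hc i).pow 2
    have hs2 : Tendsto (fun x => ∑ i ∈ Finset.range n, (((f x : L2) : ℕ → ℝ) i - (z : ℕ → ℝ) i) ^ 2) l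
        (𝓝 (∑ i ∈ Finset.range n, ((z : ℕ → ℝ) i - (z : ℕ → ℝ) i) ^ 2)) :=
      tendsto_finsetSum _ fun i _ => ((hc i).sub tendsto_const_nhds).pow 2
    have hs3 : (∑ i ∈ Finset.range n, ((z : ℕ → ℝ) i - (z : ℕ → ℝ) i) ^ 2) = 0 := by simp
    rw [hs3] at hs2
    have e1 : ∀ᶠ x in l, ∑ i ∈ Finset.range n, (((f x : L2) : ℕ → ℝ) i - (z : ℕ → ℝ) i) ^ 2 < ε / 8 :=
      hs2.eventually_lt_const (by linarith)
    have e2 : ∀ᶠ x in l, ∑ i ∈ Finset.range n, ((z : ℕ → ℝ) i) ^ 2 - ε / 16 <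
        ∑ i ∈ Finset.range n, (((f x : L2) : ℕ → ℝ) i) ^ 2 :=
      hs1.eventually_const_lt (by linarith)
    have e3 : ∀ᶠ x in l, ‖f x‖ ^ 2 < ‖z‖ ^ 2 + ε / 16 := hn.eventually_lt_const (by linarith)
    filter_upwards [e1, e2, e3] with x h1 h2 h3
    rw [Real.dist_eq, sub_zero, abs_of_nonneg (sq_nonneg _)]
    -- split the sums
    have hfz := normsq (f x - z)
    have hf := normsq (f x)
    have hzz := normsq z
    have a1 := hfz.summable.sum_add_tsum_nat_add n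
    have a2 := hf.summable.sum_add_tsum_nat_add n
    have a3 := hzz.summable.sum_add_tsum_nat_add n
    rw [hfz.tsum_eq] at a1
    rw [hf.tsum_eq] at a2
    rw [hzz.tsum_eq] at a3
    have co : ∀ i, ((f x - z : L2) : ℕ → ℝ) i = ((f x : L2) : ℕ → ℝ) i - (z : ℕ → ℝ) i := by
      intro i; rw [lp.coeFn_sub]; rfl
    have a4 : ∑' i, (((f x - z : L2) : ℕ → ℝ) (i + n)) ^ 2 ≤
        2 * ∑' i, (((f x : L2) : ℕ → ℝ) (i + n)) ^ 2 + 2 * ∑' i, ((z : ℕ → ℝ) (i + n)) ^ 2 := by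
      rw [← tsum_mul_left, ← tsum_mul_left, ← Summable.tsum_add]
      · refine Summable.tsum_le_tsum (fun i => ?_) ?_ ?_
        · rw [co]
          nlinarith [sq_nonneg (((f x : L2) : ℕ → ℝ) (i + n) + (z : ℕ → ℝ) (i + n))]
        · exact (summable_nat_add_iff n).mpr hfz.summable
        · exact (((summable_nat_add_iff n).mpr hf.summable).mul_left 2).add
            (((summable_nat_add_iff n).mpr hzz.summable).mul_left 2)
      · exact ((summable_nat_add_iff n).mpr hf.summable).mul_left 2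
      · exact ((summable_nat_add_iff n).mpr hzz.summable).mul_left 2
    have a5 : ∑ i ∈ Finset.range n, (((f x - z : L2) : ℕ → ℝ) i) ^ 2 =
        ∑ i ∈ Finset.range n, (((f x : L2) : ℕ → ℝ) i - (z : ℕ → ℝ) i) ^ 2 :=
      Finset.sum_congr rfl fun i _ => by rw [co]
    rw [a5] at a1
    linarith
  have h2 : Tendsto (fun x => Real.sqrt (‖f x - z‖ ^ 2)) l (𝓝 (Real.sqrt 0)) :=
    (Real.continuous_sqrt.tendsto 0).comp key
  simpa [Real.sqrt_sq] using h2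

/-- A nonempty space closedly embedded with bounded image in complete Erdos space is
zero-dimensional at some point. -/
theorem zero_dim_point {X : Type*} [TopologicalSpace X] [Nonempty X] {φ : X → L2}
    (hφ : IsClosedEmbedding φ) (hE : ∀ x, φ x ∈ (Erd : Set L2)) {R : ℝ} (hR : ∀ x, ‖φ x‖ ≤ R) :
    ∃ x : X, ∀ U ∈ 𝓝 x, ∃ C : Set X, IsClopen C ∧ x ∈ C ∧ C ⊆ U := by
  classical
  let j0 : X → (ℕ → ℝ) := fun x => (φ x : ℕ → ℝ)
  have hj0 : Continuous j0 := continuous_pi fun i => (cont_coord i).comp hφ.continuous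
  let T : Set (ℕ → ℝ) := closure (range j0)
  have hTS : T ⊆ pi univ fun _ : ℕ => SS := by
    refine closure_minimal ?_ (isClosed_set_pi fun i _ => SS_compact.isClosed)
    rintro _ ⟨x, rfl⟩ i _
    exact hE x i
  have hTc : IsCompact T := (isCompact_univ_pi fun _ => SS_compact).of_isClosed_subset isClosed_closure hTS
  have : CompactSpace T := isCompact_iff_compactSpace.mp hTc
  have : Nonempty T := ⟨⟨j0 (Classical.arbitrary X), subset_closure (mem_range_self _)⟩⟩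
  have : TotallyDisconnectedSpace T := by
    have : TotallyDisconnectedSpace SS :=
      (totallyDisconnectedSpace_subtype_iff).mpr SS_countable.isTotallyDisconnected
    let g : T → (ℕ → SS) := fun t i => ⟨t.1 i, hTS t.2 i (mem_univ i)⟩
    have hg : Continuous g := continuous_pi fun i =>
      ((continuous_apply i).comp continuous_subtype_val).subtype_mk _
    have hgi : Function.Injective g := by
      intro a b hab
      apply Subtype.ext
      funext i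
      exact congrArg Subtype.val (congrFun hab i)
    constructor
    intro s _ hs
    have h1 : (g '' s).Subsingleton :=
      (hs.image g hg.continuousOn).subsingleton
    exact fun a ha b hb => hgi (h1 (mem_image_of_mem g ha) (mem_image_of_mem g hb))
  -- partial sums
  let Np : ℕ → (ℕ → ℝ) → ℝ := fun n z => ∑ i ∈ Finset.range n, (z i) ^ 2
  have hNpc : ∀ n, Continuous (Np n) := fun n =>
    continuous_finsetSum _ fun i _ => (continuous_apply i).pow 2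
  have hNpR : ∀ n, ∀ z ∈ T, Np n z ≤ R ^ 2 := by
    intro n
    have hc : IsClosed {z : ℕ → ℝ | Np n z ≤ R ^ 2} := isClosed_le (hNpc n) continuous_const
    refine fun z hz => closure_minimal ?_ hc hz
    rintro _ ⟨x, rfl⟩
    have h1 : Np n (j0 x) ≤ ‖φ x‖ ^ 2 :=
      sum_le_hasSum _ (fun i _ => sq_nonneg _) (normsq (φ x))
    exact h1.trans (pow_le_pow_left₀ (norm_nonneg _) (hR x) 2)
  let N : (ℕ → ℝ) → ℝ := fun z => ⨆ n, Np n z
  have hNbd : ∀ z ∈ T, BddAbove (range fun n => Np n z) := by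
    intro z hz
    refine ⟨R ^ 2, ?_⟩
    rintro _ ⟨n, rfl⟩
    exact hNpR n z hz
  have hNle : ∀ z ∈ T, ∀ n, Np n z ≤ N z := fun z hz n => le_ciSup (hNbd z hz) n
  have hNR : ∀ z ∈ T, N z ≤ R ^ 2 := fun z hz => ciSup_le fun n => hNpR n z hz
  -- Baire
  let G : ℕ → Set T := fun k => {z | ∃ U : Set T, IsOpen U ∧ z ∈ U ∧
    ∀ u ∈ U, ∀ v ∈ U, N u ≤ N v + 1 / ((k : ℝ) + 1)}
  have hGo : ∀ k, IsOpen (G k) := by
    intro k
    rw [isOpen_iff_mem_nhds]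
    rintro z ⟨U, hU, hzU, h⟩
    exact Filter.mem_of_superset (hU.mem_nhds hzU) fun w hw => ⟨U, hU, hw, h⟩
  have hGd : ∀ k, Dense (G k) := by
    intro k
    rw [dense_iff_inter_open]
    rintro W hW ⟨w, hw⟩
    set δ : ℝ := 1 / ((k : ℝ) + 1) with hδ
    have hδ0 : 0 < δ := by positivity
    have hbd : BddAbove ((fun z : T => N z) '' W) := by
      refine ⟨R ^ 2, ?_⟩
      rintro _ ⟨z, _, rfl⟩
      exact hNR z z.2
    obtain ⟨_, ⟨z, hzW, rfl⟩, hz⟩ :=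
      exists_lt_of_lt_csSup (b := sSup ((fun z : T => N z) '' W) - δ) ⟨_, mem_image_of_mem _ hw⟩
        (by linarith)
    have hz' : sSup ((fun z : T => N z) '' W) - δ < ⨆ n, Np n z := hz
    obtain ⟨n, hn⟩ := exists_lt_of_lt_ciSup hz'
    refine ⟨z, hzW, {u | u ∈ W ∧ sSup ((fun z : T => N z) '' W) - δ < Np n u}, ?_, ⟨hzW, hn⟩, ?_⟩
    · exact hW.inter (isOpen_lt continuous_const ((hNpc n).comp continuous_subtype_val))
    · rintro u ⟨huW, -⟩ v ⟨hvW, hv⟩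
      have h1 : N u ≤ sSup ((fun z : T => N z) '' W) := le_csSup hbd (mem_image_of_mem _ huW)
      have h2 := hNle v v.2 n
      linarith
  obtain ⟨z, hz⟩ := (dense_iInter_of_isOpen_nat hGo hGd).nonempty
  rw [mem_iInter] at hz
  -- the point z of T is a continuity point
  have hzmem : Memℓp (z.1 : ℕ → ℝ) 2 := by
    apply memℓp_gen' (C := R ^ 2)
    intro s
    obtain ⟨n, hn⟩ := s.exists_nat_subset_range
    have h1 : ∑ i ∈ s, ‖z.1 i‖ ^ (2 : ENNReal).toReal = ∑ i ∈ s, (z.1 i) ^ 2 := by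
      refine Finset.sum_congr rfl fun i _ => ?_
      simp
    rw [h1]
    exact (Finset.sum_le_sum_of_subset_of_nonneg hn fun i _ _ => sq_nonneg _).trans (hNpR n z z.2)
  let z' : L2 := ⟨(z.1 : ℕ → ℝ), hzmem⟩
  have hz'c : ∀ i, (z' : ℕ → ℝ) i = z.1 i := fun i => rfl
  have hNnorm : ∀ y : L2, N (y : ℕ → ℝ) = ‖y‖ ^ 2 := by
    intro y
    have hm : Monotone fun n => Np n (y : ℕ → ℝ) := by
      refine monotone_nat_of_le_succ fun n => ?_
      show ∑ i ∈ Finset.range n, _ ≤ ∑ i ∈ Finset.range (n + 1), _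
      rw [Finset.sum_range_succ]
      linarith [sq_nonneg ((y : ℕ → ℝ) n)]
    have hb : BddAbove (range fun n => Np n (y : ℕ → ℝ)) := by
      refine ⟨‖y‖ ^ 2, ?_⟩
      rintro _ ⟨n, rfl⟩
      exact sum_le_hasSum _ (fun i _ => sq_nonneg _) (normsq y)
    exact tendsto_nhds_unique (tendsto_atTop_ciSup hm hb) (normsq y).tendsto_sum_nat
  let l : Filter X := comap j0 (𝓝 z.1)
  have hl : NeBot l := by
    rw [comap_neBot_iff]
    intro t ht
    obtain ⟨y, hyt, x, rfl⟩ := mem_closure_iff_nhds.mp z.2 t ht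
    exact ⟨x, hyt⟩
  have hj0l : Tendsto j0 l (𝓝 z.1) := tendsto_comap
  have hcoord : ∀ i, Tendsto (fun x => ((φ x : L2) : ℕ → ℝ) i) l (𝓝 ((z' : ℕ → ℝ) i)) := fun i =>
    ((continuous_apply i).tendsto z.1).comp hj0l
  have hnorm : Tendsto (fun x => ‖φ x‖ ^ 2) l (𝓝 (‖z'‖ ^ 2)) := by
    rw [Metric.tendsto_nhds]
    intro ε hε
    obtain ⟨k, hk⟩ := exists_nat_one_div_lt hε
    obtain ⟨U, hU, hzU, h⟩ := hz k
    obtain ⟨V, hV, rfl⟩ := isOpen_induced_iff.mp hU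
    have hVl : ∀ᶠ x in l, j0 x ∈ V := hj0l (hV.mem_nhds hzU)
    filter_upwards [hVl] with x hx
    have hxT : j0 x ∈ T := subset_closure (mem_range_self x)
    have h1 := h ⟨j0 x, hxT⟩ hx z hzU
    have h2 := h z hzU ⟨j0 x, hxT⟩ hx
    have e1 : N (j0 x) = ‖φ x‖ ^ 2 := hNnorm (φ x)
    have e2 : N z.1 = ‖z'‖ ^ 2 := hNnorm z'
    simp only [e1, e2] at h1 h2
    rw [Real.dist_eq, abs_lt]
    constructor <;> linarith
  have hlim : Tendsto φ l (𝓝 z') := radon_riesz hcoord hnorm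
  obtain ⟨x, hx⟩ := hφ.isClosed_range.mem_of_tendsto hlim (Eventually.of_forall fun x => mem_range_self x)
  have hlx : l ≤ 𝓝 x := by
    rw [hφ.isInducing.nhds_eq_comap, hx]
    exact hlim.le_comap
  refine ⟨x, fun U hU => ?_⟩
  obtain ⟨V, hV, hVU⟩ := hlx hU
  obtain ⟨V', hV'V, hV'o, hzV'⟩ := mem_nhds_iff.mp hV
  obtain ⟨W, hW, hzW, hWV⟩ := compact_exists_isClopen_in_isOpen (x := z)
    (hV'o.preimage continuous_subtype_val) hzV'
  let j : X → T := fun x => ⟨j0 x, subset_closure (mem_range_self x)⟩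
  have hj : Continuous j := hj0.subtype_mk _
  have hjx : j x = z := by
    apply Subtype.ext
    show ((φ x : L2) : ℕ → ℝ) = z.1
    rw [hx]
  refine ⟨j ⁻¹' W, hW.preimage hj, ?_, ?_⟩
  · show j x ∈ W
    rw [hjx]; exact hzW
  · intro y hy
    exact hVU (hV'V (hWV hy))

end Pool.Agent.W633
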